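import Mathlib

/-!
# LAX: definitions

Paper proof: `/team-store/PAPER_LAC96.md`. Arc sets are `Set (α × β)`; sizes are `Set.ncard`.
-/

set_option autoImplicit false

namespace Pool.Agent.LAX

variable {α β V : Type}

/-- Out-neighbours. -/
def out (R : Set (α × β)) (x : α) : Set β := {y | (x, y) ∈ R}

/-- In-neighbours. -/
def inn (R : Set (α × β)) (y : β) : Set α := {x | (x, y) ∈ R}

/-- The tails. -/
def dom (R : Set (α × β)) : Set α := {x | ∃ y, (x, y) ∈ R}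

/-- The heads. -/
def ran (R : Set (α × β)) : Set β := {y | ∃ x, (x, y) ∈ R}

/-- Partial injection. -/
def PI (F : Set (α × β)) : Prop :=
  (∀ x y y', (x, y) ∈ F → (x, y') ∈ F → y = y') ∧ (∀ x x' y, (x, y) ∈ F → (x', y) ∈ F → x = x')

/-- Closed walks have length at least `b`. -/
def CW (F : Set (α × α)) (b : ℕ) : Prop :=
  ∀ (j : ℕ) (c : ℕ → α), 1 ≤ j → (∀ i < j, (c i, c (i + 1)) ∈ F) → c j = c 0 → b ≤ j

/-- No closed walk. -/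
def Acyc (F : Set (α × α)) : Prop := ∀ x, ¬ Relation.TransGen (fun a b => (a, b) ∈ F) x x

/-- First `T`, then `M`. -/
def comp (T : Set (β × α)) (M : Set (α × β)) : Set (β × β) :=
  {p | ∃ x, (p.1, x) ∈ T ∧ (x, p.2) ∈ M}

/-- The reversed arc set. -/
def rv (R : Set (α × β)) : Set (β × α) := {p | (p.2, p.1) ∈ R}

/-- The digraph `E` is `k`-regular. -/
def Reg (E : Set (V × V)) (k : ℕ) : Prop := ∀ v, (out E v).ncard = k ∧ (inn E v).ncard = k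

/-! ### GL -/

/-- Replace the arc into `y` (if any) by `(x, y)`. -/
def mv (M : Set (α × β)) (x : α) (y : β) : Set (α × β) := {p | p ∈ M ∧ p.2 ≠ y} ∪ {(x, y)}

/-- The blocked heads: those `y` for which `mv M x y` may have a closed walk shorter than `b`. -/
def blk (T : Set (β × α)) (M : Set (α × β)) (b : ℕ) (x : α) : Set β :=
  {y | ∃ (i : ℕ) (c : ℕ → β), i + 2 ≤ b ∧ c 0 = y ∧
    (∀ t < i, (c t, c (t + 1)) ∈ comp T M) ∧ (c i, x) ∈ T}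

/-- Number of violations. -/
noncomputable def viol (X X' : Set α) (Y Y' : Set β) (M : Set (α × β)) : ℕ :=
  {x | x ∈ X ∧ x ∉ X' ∧ x ∉ dom M}.ncard + {y | y ∈ Y ∧ y ∉ Y' ∧ y ∉ ran M}.ncard

/-! ### Parameters -/

/-- `lam = 2 ^ l`, `g = 2 ^ s`, `q = 2 ^ (s + I)` classes, `1 / theta = T = 2 ^ h`. -/
structure Par (k l s I h : ℕ) : Prop where
  p1 : 17 * (k : ℝ) ≤ Real.exp ((2 : ℝ) ^ l)
  p1' : (2 : ℝ) ^ l ≤ 2 * (Real.log k + 3)
  p2 : 2 ^ (3 * s) ≤ k * 2 ^ (2 * l)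
  p2' : k * 2 ^ (2 * l) < 2 ^ (3 * s + 3)
  p3 : 2 ^ (s + I + 3) ≤ k
  p3' : k < 2 ^ (s + I + 4)
  p4 : s = h + l + 5
  p5 : l + 30 ≤ s
  /-- consequences -/
  i1 : 2 * s ≤ I + 2 * l + 3
  i2 : I + 2 * l + 1 ≤ 2 * s
  i3 : I ≤ 2 ^ (l + 1)
  k1 : 1 ≤ k

/-! ### Phase I -/

/-- The output of `PH1`: `n` classes inside `R` with disjoint sink sets inside `U`. -/
structure Good1 (E : Set (V × V)) (g : ℕ) (u : ℝ) (n : ℕ) (R : Set (V × V)) (U : Set V)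
    (F : ℕ → Set (V × V)) (Z : ℕ → Set V) : Prop where
  sub : ∀ j < n, F j ⊆ R
  pi : ∀ j < n, PI (F j)
  cw : ∀ j < n, CW (F j) g
  disj : ∀ i < n, ∀ j < n, i ≠ j → Disjoint (F i) (F j)
  zsub : ∀ j < n, Z j ⊆ U
  zdisj : ∀ i < n, ∀ j < n, i ≠ j → Disjoint (Z i) (Z j)
  cov : ∀ j < n, ∀ v, v ∉ Z j → v ∈ dom (F j) ∧ v ∈ ran (F j)
  sm : ∀ j < n, ∀ v, ((out E v ∩ Z j).ncard : ℝ) ≤ u ∧ ((inn E v ∩ Z j).ncard : ℝ) ≤ u

/-- The claim `PH1(i)` for the digraph `E`. -/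
def PH1 (E : Set (V × V)) (g : ℕ) (L Up : ℕ → ℝ) (i : ℕ) : Prop :=
  ∀ (R : Set (V × V)) (U : Set V) (D τ : ℕ), R ⊆ E →
    (∀ v, (D ≤ (out R v).ncard ∧ (out R v).ncard ≤ D + τ) ∧
      (D ≤ (inn R v).ncard ∧ (inn R v).ncard ≤ D + τ)) →
    (∀ v ∈ U, (out R v).ncard + 1 ≤ D + τ ∧ (inn R v).ncard + 1 ≤ D + τ) →
    (∀ v, L i ≤ ((out R v ∩ U).ncard : ℝ) ∧ L i ≤ ((inn R v ∩ U).ncard : ℝ)) →
    (∀ v, ((out E v ∩ U).ncard : ℝ) ≤ Up i ∧ ((inn E v ∩ U).ncard : ℝ) ≤ Up i) →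
    2 ^ i + g ≤ D → (τ : ℝ) + g ≤ L 0 + 1 →
    ∃ (F : ℕ → Set (V × V)) (Z : ℕ → Set V), Good1 E g (Up 0) (2 ^ i) R U F Z

/-- The output of Phase I: `q` disjoint classes `F c`, closed walks at least `g`, everything
outside `Z c` is covered, every vertex is in at most `w` of the `Z c`, which are `u`-sparse. -/
structure Cls (E : Set (V × V)) (g q u w : ℕ) (F : ℕ → Set (V × V)) (Z : ℕ → Set V) :
    Prop where
  sub : ∀ c < q, F c ⊆ E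
  pi : ∀ c < q, PI (F c)
  cw : ∀ c < q, CW (F c) g
  disj : ∀ c < q, ∀ d < q, c ≠ d → Disjoint (F c) (F d)
  cov : ∀ c < q, ∀ v, v ∉ Z c → v ∈ dom (F c) ∧ v ∈ ran (F c)
  few : ∀ v, {c | c < q ∧ v ∈ Z c}.ncard ≤ w
  sm : ∀ c < q, ∀ v, (out E v ∩ Z c).ncard ≤ u ∧ (inn E v ∩ Z c).ncard ≤ u

/-! ### Phase II -/

/-- The map from the start `y ∈ Y` of a path of `F'` to its end `x ∈ X`. -/
def pth (F' : Set (V × V)) (Y X : Set V) : Set (V × V) :=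
  {p | p.1 ∈ Y ∧ p.2 ∈ X ∧ Relation.ReflTransGen (fun a b => (a, b) ∈ F') p.1 p.2}

/-- `S` = arcs cut from the class `F`, `M` = links. The new class is `(F \ S) ∪ M`. -/
structure Rel1 (F S M : Set (V × V)) (b : ℕ) : Prop where
  sub : S ⊆ F
  acy : Acyc (F \ S)
  pi : PI M
  dm : dom M ⊆ dom S
  rn : ran M ⊆ ran S
  cw : CW (comp (pth (F \ S) (ran S) (dom S)) M) b

/-- The current class number `c`. -/
def kc (F S M : ℕ → Set (V × V)) (c : ℕ) : Set (V × V) := (F c \ S c) ∪ M c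

/-- What is left. -/
def lft (E : Set (V × V)) (q : ℕ) (F S M : ℕ → Set (V × V)) : Set (V × V) :=
  {a | a ∈ E ∧ ∀ c < q, a ∉ kc F S M c}

/-- The state after `n` blocks of `P` classes. For every vertex `v` at most `w v` classes have `v`
as an unmatched cut tail (cut head). -/
structure Sta (E : Set (V × V)) (q P b Hb : ℕ) (F S M : ℕ → Set (V × V)) (n : ℕ) (w : V → ℕ) :
    Prop where
  rel : ∀ c < n * P, Rel1 (F c) (S c) (M c) b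
  unp : ∀ c, n * P ≤ c → S c = ∅ ∧ M c = ∅
  sub : ∀ c < q, M c ⊆ E
  disj : ∀ c < q, ∀ d < q, c ≠ d → Disjoint (kc F S M c) (kc F S M d)
  few : ∀ m < n, ∀ v, {c | m * P ≤ c ∧ c < (m + 1) * P ∧ v ∈ dom (S c)}.ncard ≤ Hb ∧
    {c | m * P ≤ c ∧ c < (m + 1) * P ∧ v ∈ ran (S c)}.ncard ≤ Hb
  unl : ∀ v, {c | c < q ∧ v ∈ dom (S c) ∧ v ∉ dom (M c)}.ncard ≤ w v ∧
    {c | c < q ∧ v ∈ ran (S c) ∧ v ∉ ran (M c)}.ncard ≤ w v

/-- The numerical conditions for a block: `lo ≤ deg R ≤ hi`, `e` = lower bound for the degree into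
the eligible set. -/
structure Num (lam : ℝ) (h u lo hi e P g Hb b D D' ζ : ℕ) : Prop where
  hP : √((P : ℝ) / 2 ^ h) + 5 / 2 * √lam ≤ √(Hb : ℝ)
  hg : 5 * √lam < √((g : ℝ) / 2 ^ h)
  hD : √((D : ℝ) + Hb) ≤ √(((lo : ℝ) - u) / 2 ^ h) - 5 * √lam
  hD' : √((hi : ℝ) / 2 ^ h) + 5 / 2 * √lam ≤ √(D' : ℝ)
  hz : √((ζ : ℝ) + Hb) ≤ √(((e : ℝ) - u) / 2 ^ h) - 5 * √lam
  hb : 1 ≤ b
  hbD : b ≤ D
  hDD : D' + b ≤ D + ζ + 1

/-- `N ∩ S` has about `|N| / 2 ^ h` elements (square root scale). -/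
def Near {Z : Type} (lam : ℝ) (h : ℕ) (N S : Set Z) : Prop :=
  √((N.ncard : ℝ) / 2 ^ h) - 5 * √lam ≤ √((N ∩ S).ncard : ℝ) ∧
    √((N ∩ S).ncard : ℝ) ≤ √((N.ncard : ℝ) / 2 ^ h) + 5 / 2 * √lam

/-- The window of `v`: the arcs of `F` whose tail is reached from `v` in less than `g` steps. -/
def win (F : Set (V × V)) (g : ℕ) (v : V) : Set (V × V) :=
  {a | a ∈ F ∧ ∃ i < g, ∃ c : ℕ → V, c 0 = v ∧ (∀ t < i, (c t, c (t + 1)) ∈ F) ∧ c i = a.1}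

/-- The arcs of `F` whose tail is in `A` and is an in-neighbour of `y` in `R`. -/
def am (R F : Set (V × V)) (A : Set V) (y : V) : Set (V × V) := {a | a ∈ F ∧ (a.1, y) ∈ R ∧ a.1 ∈ A}

/-- The arcs of `F` whose head is in `A` and is an out-neighbour of `x` in `R`. -/
def ap (R F : Set (V × V)) (A : Set V) (x : V) : Set (V × V) := {a | a ∈ F ∧ (x, a.2) ∈ R ∧ a.2 ∈ A}

/-- The degree conditions for the cut set `S` of a class. -/
def CutOK (R : Set (V × V)) (Eb : Set V) (Hb D D' ζ : ℕ) (S : Set (V × V)) : Prop :=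
  ∀ v, (D + Hb ≤ (inn R v ∩ dom S).ncard ∧ (inn R v ∩ dom S).ncard ≤ D' ∧
      ζ + Hb ≤ (inn R v ∩ Eb ∩ dom S).ncard) ∧
    (D + Hb ≤ (out R v ∩ ran S).ncard ∧ (out R v ∩ ran S).ncard ≤ D' ∧
      ζ + Hb ≤ (out R v ∩ Eb ∩ ran S).ncard)

/-- The conclusion of the round lemma: `q` disjoint acyclic partial injections inside `E` such that
every vertex is missing in at most `err` of the `dom` and of the `ran`. -/
def Round (E : Set (V × V)) (q err : ℕ) : Prop :=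
  ∃ K : ℕ → Set (V × V), (∀ c < q, K c ⊆ E ∧ PI (K c) ∧ Acyc (K c)) ∧
    (∀ c < q, ∀ d < q, c ≠ d → Disjoint (K c) (K d)) ∧
    ∀ v, {c | c < q ∧ v ∉ dom (K c)}.ncard ≤ err ∧ {c | c < q ∧ v ∉ ran (K c)}.ncard ≤ err

end Pool.Agent.LAX
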