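import Mathlib
import Pool.Agent.Helper96_LAX.Defs

/-!
# LAX: basic lemmas
-/

set_option autoImplicit false

namespace Pool.Agent.LAX

variable {α β γ V : Type}

/-! ### walks -/

lemma exists_walk_of_reflTransGen {F : Set (α × α)} {x y : α}
    (h : Relation.ReflTransGen (fun a b => (a, b) ∈ F) x y) :
    ∃ (j : ℕ) (c : ℕ → α), c 0 = x ∧ c j = y ∧ ∀ i < j, (c i, c (i + 1)) ∈ F := by
  induction h with
  | refl => exact ⟨0, fun _ => x, rfl, rfl, by simp⟩
  | @tail b d _ hbd ih =>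
    obtain ⟨j, c, h0, hj, hc⟩ := ih
    refine ⟨j + 1, fun i => if i ≤ j then c i else d, by simp [h0], by simp, ?_⟩
    intro i hi
    rcases Nat.lt_or_ge i j with h | h
    · have h1 : i ≤ j := h.le
      have h2 : i + 1 ≤ j := h
      simp only [h1, h2, if_true]
      exact hc i h
    · have h1 : i = j := by omega
      subst h1
      simp only [le_refl, if_true, show ¬ (i + 1 ≤ i) by omega, if_false]
      rw [hj]
      exact hbd

lemma exists_walk_of_transGen {F : Set (α × α)} {x y : α}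
    (h : Relation.TransGen (fun a b => (a, b) ∈ F) x y) :
    ∃ (j : ℕ) (c : ℕ → α), 1 ≤ j ∧ c 0 = x ∧ c j = y ∧ ∀ i < j, (c i, c (i + 1)) ∈ F := by
  obtain ⟨z, hxz, hzy⟩ := Relation.TransGen.tail'_iff.1 h
  obtain ⟨j, c, h0, hj, hc⟩ := exists_walk_of_reflTransGen hxz
  refine ⟨j + 1, fun i => if i ≤ j then c i else y, by omega, by simp [h0], by simp, ?_⟩
  intro i hi
  rcases Nat.lt_or_ge i j with h | h
  · have h1 : i ≤ j := h.le
    have h2 : i + 1 ≤ j := h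
    simp only [h1, h2, if_true]
    exact hc i h
  · have h1 : i = j := by omega
    subst h1
    simp only [le_refl, if_true, show ¬ (i + 1 ≤ i) by omega, if_false]
    rw [hj]
    exact hzy

lemma reflTransGen_of_walk {F : Set (α × α)} {c : ℕ → α} {j : ℕ}
    (hc : ∀ i < j, (c i, c (i + 1)) ∈ F) :
    Relation.ReflTransGen (fun a b => (a, b) ∈ F) (c 0) (c j) := by
  induction j with
  | zero => exact Relation.ReflTransGen.refl
  | succ j ih => exact (ih (fun i hi => hc i (by omega))).tail (hc j (by omega))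

lemma transGen_of_walk {F : Set (α × α)} {c : ℕ → α} {j : ℕ} (hj : 1 ≤ j)
    (hc : ∀ i < j, (c i, c (i + 1)) ∈ F) :
    Relation.TransGen (fun a b => (a, b) ∈ F) (c 0) (c j) := by
  obtain ⟨j, rfl⟩ := Nat.exists_eq_add_of_le' hj
  exact Relation.TransGen.tail' (reflTransGen_of_walk (fun i hi => hc i (by omega)))
    (hc j (by omega))

lemma acyc_iff_cw {F : Set (α × α)} : Acyc F ↔ ∀ b, CW F b := by
  constructor
  · intro h b j c hj hc hcl
    exfalso
    have := transGen_of_walk hj hc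
    rw [hcl] at this
    exact h _ this
  · intro h x hx
    obtain ⟨j, c, hj, h0, h1, hc⟩ := exists_walk_of_transGen hx
    have := h (j + 1) j c hj hc (by rw [h0, h1])
    omega

lemma Acyc.cw {F : Set (α × α)} (h : Acyc F) (b : ℕ) : CW F b := acyc_iff_cw.1 h b

lemma Acyc.mono {F F' : Set (α × α)} (h : Acyc F) (hF : F' ⊆ F) : Acyc F' :=
  fun x hx => h x (Relation.TransGen.mono (p := fun a b => (a, b) ∈ F) (fun _ _ hab => hF hab) x x hx)

lemma CW.mono {F F' : Set (α × α)} {b : ℕ} (h : CW F b) (hF : F' ⊆ F) : CW F' b :=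
  fun j c hj hc hcl => h j c hj (fun i hi => hF (hc i hi)) hcl

lemma CW.le {F : Set (α × α)} {b b' : ℕ} (h : CW F b) (hb : b' ≤ b) : CW F b' :=
  fun j c hj hc hcl => hb.trans (h j c hj hc hcl)

lemma cw_empty (b : ℕ) : CW (∅ : Set (α × α)) b := fun _ _ hj hc _ => absurd (hc 0 hj) (by simp)

lemma acyc_empty : Acyc (∅ : Set (α × α)) := acyc_iff_cw.2 fun b => cw_empty b

/-! ### partial injections -/

lemma PI.mono {F F' : Set (α × β)} (h : PI F) (hF : F' ⊆ F) : PI F' :=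
  ⟨fun x y y' h1 h2 => h.1 x y y' (hF h1) (hF h2), fun x x' y h1 h2 => h.2 x x' y (hF h1) (hF h2)⟩

lemma pi_empty : PI (∅ : Set (α × β)) := ⟨fun _ _ _ h => absurd h (by simp), fun _ _ _ h => absurd h (by simp)⟩

lemma PI.rv {F : Set (α × β)} (h : PI F) : PI (rv F) :=
  ⟨fun x y y' h1 h2 => h.2 y y' x h1 h2, fun x x' y h1 h2 => h.1 y x x' h1 h2⟩

@[simp] lemma rv_rv (F : Set (α × β)) : rv (rv F) = F := rfl

@[simp] lemma mem_rv {F : Set (α × β)} {x : α} {y : β} : (y, x) ∈ rv F ↔ (x, y) ∈ F := Iff.rfl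

@[simp] lemma dom_rv (F : Set (α × β)) : dom (rv F) = ran F := rfl

@[simp] lemma ran_rv (F : Set (α × β)) : ran (rv F) = dom F := rfl

@[simp] lemma out_rv (F : Set (α × β)) (y : β) : out (rv F) y = inn F y := rfl

@[simp] lemma inn_rv (F : Set (α × β)) (x : α) : inn (rv F) x = out F x := rfl

lemma PI.comp {T : Set (β × α)} {M : Set (α × β)} (hT : PI T) (hM : PI M) : PI (comp T M) := by
  constructor
  · rintro y z z' ⟨x, h1, h2⟩ ⟨x', h3, h4⟩
    have := hT.1 _ _ _ h1 h3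
    dsimp only at *
    subst this
    exact hM.1 _ _ _ h2 h4
  · rintro y y' z ⟨x, h1, h2⟩ ⟨x', h3, h4⟩
    have := hM.2 _ _ _ h2 h4
    dsimp only at *
    subst this
    exact hT.2 _ _ _ h1 h3

/-- Walks in a partial injection from the same start agree. -/
lemma PI.walk_unique {F : Set (α × α)} (h : PI F) {c d : ℕ → α} {n : ℕ}
    (hc : ∀ i < n, (c i, c (i + 1)) ∈ F) (hd : ∀ i < n, (d i, d (i + 1)) ∈ F) (h0 : c 0 = d 0) :
    ∀ i ≤ n, c i = d i := by
  intro i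
  induction i with
  | zero => intro _; exact h0
  | succ i ih =>
    intro hi
    have h1 := ih (by omega)
    have h2 := hc i (by omega)
    rw [h1] at h2
    exact h.1 _ _ _ h2 (hd i (by omega))

/-- Walks in a partial injection with the same end agree. -/
lemma PI.walk_unique' {F : Set (α × α)} (h : PI F) {c d : ℕ → α} {n : ℕ}
    (hc : ∀ i < n, (c i, c (i + 1)) ∈ F) (hd : ∀ i < n, (d i, d (i + 1)) ∈ F) (h0 : c n = d n) :
    ∀ i ≤ n, c i = d i := by
  have key : ∀ i ≤ n, c (n - i) = d (n - i) := by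
    intro i
    induction i with
    | zero => intro _; exact h0
    | succ i ih =>
      intro hi
      have h1 := ih (by omega)
      have h2 := hc (n - (i + 1)) (by omega)
      have h3 := hd (n - (i + 1)) (by omega)
      have h4 : n - (i + 1) + 1 = n - i := by omega
      rw [h4] at h2 h3
      rw [h1] at h2
      exact h.2 _ _ _ h2 h3
  intro i hi
  have := key (n - i) (by omega)
  rwa [show n - (n - i) = i by omega] at this

lemma dom_mono {F F' : Set (α × β)} (h : F' ⊆ F) : dom F' ⊆ dom F := fun _ ⟨y, hy⟩ => ⟨y, h hy⟩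

lemma ran_mono {F F' : Set (α × β)} (h : F' ⊆ F) : ran F' ⊆ ran F := fun _ ⟨y, hy⟩ => ⟨y, h hy⟩

/-- The tails of a cut arc have no arc in the rest. -/
lemma PI.notMem_dom_sdiff {F S : Set (α × β)} (h : PI F) (hS : S ⊆ F) {x : α} (hx : x ∈ dom S) :
    x ∉ dom (F \ S) := by
  obtain ⟨y, hy⟩ := hx
  rintro ⟨z, hz, hz'⟩
  exact hz' (h.1 _ _ _ hz (hS hy) ▸ hy)

lemma PI.notMem_ran_sdiff {F S : Set (α × β)} (h : PI F) (hS : S ⊆ F) {y : β} (hy : y ∈ ran S) :
    y ∉ ran (F \ S) := by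
  obtain ⟨x, hx⟩ := hy
  rintro ⟨z, hz, hz'⟩
  exact hz' (h.2 _ _ _ hz (hS hx) ▸ hx)

/-- The new class is a partial injection. -/
lemma Rel1.pi_kc {F S M : Set (V × V)} {b : ℕ} (h : Rel1 F S M b) (hF : PI F) :
    PI ((F \ S) ∪ M) := by
  constructor
  · rintro x y y' (h1 | h1) (h2 | h2)
    · exact hF.1 _ _ _ h1.1 h2.1
    · exact absurd ⟨y, h1⟩ (hF.notMem_dom_sdiff h.sub (h.dm ⟨y', h2⟩))
    · exact absurd ⟨y', h2⟩ (hF.notMem_dom_sdiff h.sub (h.dm ⟨y, h1⟩))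
    · exact h.pi.1 _ _ _ h1 h2
  · rintro x x' y (h1 | h1) (h2 | h2)
    · exact hF.2 _ _ _ h1.1 h2.1
    · exact absurd ⟨x, h1⟩ (hF.notMem_ran_sdiff h.sub (h.rn ⟨x', h2⟩))
    · exact absurd ⟨x', h2⟩ (hF.notMem_ran_sdiff h.sub (h.rn ⟨x, h1⟩))
    · exact h.pi.2 _ _ _ h1 h2

/-! ### counting -/

/-- The out-arcs of `v` in the classes `M c`, `c ∈ C`, are at most the number of `c` with
`v ∈ dom (M c)`. -/
lemma ncard_out_le {M : ℕ → Set (α × β)} (C : Finset ℕ) (hM : ∀ c ∈ C, PI (M c)) (v : α) :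
    {y | ∃ c ∈ C, (v, y) ∈ M c}.ncard ≤ {c | c ∈ C ∧ v ∈ dom (M c)}.ncard := by
  classical
  have hfin : {c | c ∈ C ∧ v ∈ dom (M c)}.Finite := C.finite_toSet.subset fun c hc => hc.1
  have hch : ∀ y ∈ {y | ∃ c ∈ C, (v, y) ∈ M c}, ∃ c, c ∈ C ∧ (v, y) ∈ M c := fun y hy => by
    obtain ⟨c, h1, h2⟩ := hy; exact ⟨c, h1, h2⟩
  choose! f hf using hch
  refine Set.ncard_le_ncard_of_injOn f (fun y hy => ⟨(hf y hy).1, ⟨y, (hf y hy).2⟩⟩) ?_ hfin
  intro y hy y' hy' hyy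
  have h1 := (hf y hy).2
  have h2 := (hf y' hy').2
  rw [← hyy] at h2
  exact (hM _ (hf y hy).1).1 _ _ _ h1 h2

lemma ncard_inn_le {M : ℕ → Set (α × β)} (C : Finset ℕ) (hM : ∀ c ∈ C, PI (M c)) (v : β) :
    {x | ∃ c ∈ C, (x, v) ∈ M c}.ncard ≤ {c | c ∈ C ∧ v ∈ ran (M c)}.ncard :=
  ncard_out_le (M := fun c => rv (M c)) C (fun c hc => (hM c hc).rv) v

/-- Equality for disjoint classes. -/
lemma ncard_out_eq {M : ℕ → Set (α × β)} (C : Finset ℕ) (hM : ∀ c ∈ C, PI (M c))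
    (hd : ∀ c ∈ C, ∀ d ∈ C, c ≠ d → Disjoint (M c) (M d)) (v : α) [Finite β] :
    {y | ∃ c ∈ C, (v, y) ∈ M c}.ncard = {c | c ∈ C ∧ v ∈ dom (M c)}.ncard := by
  classical
  refine le_antisymm (ncard_out_le C hM v) ?_
  have hch : ∀ c ∈ {c | c ∈ C ∧ v ∈ dom (M c)}, ∃ y, (v, y) ∈ M c := fun c hc => hc.2
  by_cases hβ : Nonempty β
  · choose! f hf using hch
    refine Set.ncard_le_ncard_of_injOn f (fun c hc => ⟨c, hc.1, hf c hc⟩) ?_ (Set.toFinite _)
    intro c hc c' hc' hcc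
    by_contra hne
    have h1 := hf c hc
    have h2 := hf c' hc'
    rw [← hcc] at h2
    exact Set.disjoint_left.1 (hd c hc.1 c' hc'.1 hne) h1 h2
  · have : {c | c ∈ C ∧ v ∈ dom (M c)} = ∅ := by
      ext c
      constructor
      · rintro ⟨_, ⟨y, _⟩⟩
        exact (hβ ⟨y⟩).elim
      · intro h
        exact h.elim
    rw [this]
    simp

lemma ncard_inn_eq {M : ℕ → Set (α × β)} (C : Finset ℕ) (hM : ∀ c ∈ C, PI (M c))
    (hd : ∀ c ∈ C, ∀ d ∈ C, c ≠ d → Disjoint (M c) (M d)) (v : β) [Finite α] :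
    {x | ∃ c ∈ C, (x, v) ∈ M c}.ncard = {c | c ∈ C ∧ v ∈ ran (M c)}.ncard := by
  refine ncard_out_eq (M := fun c => rv (M c)) C (fun c hc => (hM c hc).rv) ?_ v
  intro c hc d hd' hne
  rw [Set.disjoint_left]
  rintro ⟨a, b⟩ h1 h2
  exact Set.disjoint_left.1 (hd c hc d hd' hne) h1 h2

lemma PI.out_subsingleton {F : Set (α × β)} (h : PI F) (x : α) : (out F x).Subsingleton :=
  fun _ h1 _ h2 => h.1 _ _ _ h1 h2

lemma PI.inn_subsingleton {F : Set (α × β)} (h : PI F) (y : β) : (inn F y).Subsingleton :=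
  fun _ h1 _ h2 => h.2 _ _ _ h1 h2

lemma PI.ncard_out_le_one {F : Set (α × β)} (h : PI F) (x : α) : (out F x).ncard ≤ 1 := by
  rcases (h.out_subsingleton x).eq_empty_or_singleton with h | ⟨y, h⟩ <;> rw [h] <;> simp

lemma PI.ncard_inn_le_one {F : Set (α × β)} (h : PI F) (y : β) : (inn F y).ncard ≤ 1 :=
  h.rv.ncard_out_le_one y

end Pool.Agent.LAX
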