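import Mathlib
import Pool.Agent.Helper96_LAX.Defs
import Pool.Agent.Helper14_LA.Final

/-!
# LAX: exact statements of the modules

Paper proof: `/team-store/PAPER_LAC96.md`; plan of the modules: `/team-store/PLAN_LAX.md`.
-/

set_option autoImplicit false

namespace Pool.Agent.LAX

open Pool.Agent.Helper14_LA

/-- All graphs of maximum degree at most `2 k` are unions of `n` linear forests. -/
def Cov (k n : ℕ) : Prop := ∀ (V : Type) [Finite V] (G : SimpleGraph V),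
  (∀ v, (G.neighborSet v).ncard ≤ 2 * k) → CoveredBy G n

/-! ### G: the extremal closure lemma -/

/-- GLA: an unblocked switch creates no short closed walk. -/
def GLAStmt : Prop := ∀ (α β : Type) (T : Set (β × α)) (M : Set (α × β)) (b : ℕ) (x : α) (y : β),
  PI T → PI M → CW (comp T M) b → x ∉ dom M → y ∉ blk T M b x → CW (comp T (mv M x y)) b

/-- GLB: there are at most `b - 1` blocked heads. -/
def GLBStmt : Prop := ∀ (α β : Type) [Finite β] (T : Set (β × α)) (M : Set (α × β)) (b : ℕ)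
  (x : α), 1 ≤ b → PI T → PI M → (blk T M b x).ncard + 1 ≤ b

/-- GLC: a minimiser of the number of violations has no violating tail. -/
def GLCStmt : Prop := ∀ (α β : Type) [Finite α] [Finite β] (X X' : Set α) (Y Y' : Set β)
  (H : Set (α × β)) (T : Set (β × α)) (b D D' ζ : ℕ),
  1 ≤ b → b ≤ D → D' + b ≤ D + ζ + 1 → PI T → (∀ p ∈ H, p.1 ∈ X ∧ p.2 ∈ Y) →
  (∀ x ∈ X, D ≤ (out H x).ncard) →
  (∀ y ∈ Y, (inn H y).ncard ≤ D' ∧ ζ ≤ (inn H y ∩ X').ncard) →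
  ∀ M₀ : Set (α × β), M₀ ⊆ H → PI M₀ → CW (comp T M₀) b →
    (∀ M : Set (α × β), M ⊆ H → PI M → CW (comp T M) b →
      viol X X' Y Y' M₀ ≤ viol X X' Y Y' M) →
    ∀ x ∈ X, x ∉ X' → x ∈ dom M₀

/-- GL: the extremal closure lemma. -/
def GLStmt : Prop := ∀ (α β : Type) [Finite α] [Finite β] (X X' : Set α) (Y Y' : Set β)
  (H : Set (α × β)) (T : Set (β × α)) (b D D' ζ : ℕ),
  1 ≤ b → b ≤ D → D' + b ≤ D + ζ + 1 → PI T → (∀ p ∈ H, p.1 ∈ X ∧ p.2 ∈ Y) →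
  (∀ x ∈ X, D ≤ (out H x).ncard ∧ (out H x).ncard ≤ D' ∧ ζ ≤ (out H x ∩ Y').ncard) →
  (∀ y ∈ Y, D ≤ (inn H y).ncard ∧ (inn H y).ncard ≤ D' ∧ ζ ≤ (inn H y ∩ X').ncard) →
  ∃ M : Set (α × β), M ⊆ H ∧ PI M ∧ CW (comp T M) b ∧
    (∀ x ∈ X, x ∉ X' → x ∈ dom M) ∧ (∀ y ∈ Y, y ∉ Y' → y ∈ ran M)

/-! ### H: halving -/

/-- HOE: Hoeffding's inequality for fair coins, counting form. -/
def HoeStmt : Prop := ∀ (Z : Type) [Fintype Z] [DecidableEq Z] (N : Finset Z) (lam : ℝ), 0 < lam →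
  ((Finset.univ.filter (fun ω : Z → Bool => √(lam * N.card) <
    |((N.filter (fun z => ω z = true)).card : ℝ) - N.card / 2|)).card : ℝ) ≤
    2 * Real.exp (-2 * lam) * Fintype.card (Z → Bool)

/-- HL: halving. -/
def HLStmt : Prop := ∀ (Z J : Type) [Finite Z] [Finite J] (N : J → Set Z) (m : ℕ) (lam : ℝ),
  0 < lam → 8 * (m : ℝ) ^ 2 ≤ Real.exp (2 * lam) → (∀ j, (N j).ncard ≤ m) →
  (∀ z, {j | z ∈ N j}.ncard ≤ m) →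
  ∃ S : Set Z, ∀ j, |((N j ∩ S).ncard : ℝ) - (N j).ncard / 2| ≤ √(lam * (N j).ncard)

/-- IP: iterated halving of all colour classes. -/
def IPStmt : Prop := ∀ (Z J : Type) [Finite Z] [Finite J] (N : J → Set Z) (m : ℕ) (lam : ℝ)
  (t : ℕ), 0 < lam → 8 * (m : ℝ) ^ 2 ≤ Real.exp (2 * lam) → (∀ j, (N j).ncard ≤ m) →
  (∀ z, {j | z ∈ N j}.ncard ≤ m) →
  ∃ col : Z → ℕ, (∀ z, col z < 2 ^ t) ∧ ∀ j, ∀ i < 2 ^ t, Near lam t (N j) {z | col z = i}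

/-! ### P: Phase I -/

/-- P1B: one class. -/
def P1BStmt : Prop := ∀ (V : Type) [Finite V] (E : Set (V × V)) (g : ℕ) (L Up : ℕ → ℝ), 1 ≤ g →
  PH1 E g L Up 0

/-- P1S: doubling the number of classes. -/
def P1SStmt : Prop := ∀ (V : Type) [Finite V] (E : Set (V × V)) (k g : ℕ) (lam : ℝ)
  (L Up : ℕ → ℝ) (i : ℕ), 0 < lam → 288 * (k : ℝ) ^ 2 ≤ Real.exp (2 * lam) → Reg E k →
  lam ≤ L (i + 1) → L i + 2 ^ i ≤ L (i + 1) / 2 - √(lam * L (i + 1)) →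
  0 ≤ Up (i + 1) → Up (i + 1) / 2 + √(lam * Up (i + 1)) ≤ Up i →
  PH1 E g L Up i → PH1 E g L Up (i + 1)

/-- P1I: `g` periods. -/
def P1IStmt : Prop := ∀ (V : Type) [Finite V] (E : Set (V × V)) (k g u : ℕ)
  (L Up : ℕ → ℝ) (I : ℕ), 1 ≤ g → Reg E k → PH1 E g L Up I → 2 * (g : ℝ) ≤ L 0 + 1 →
  L I + (g * 2 ^ I : ℕ) ≤ k → (k : ℝ) ≤ Up I → Up 0 ≤ u → g * 2 ^ I + g ≤ k →
  ∃ (F : ℕ → Set (V × V)) (Z : ℕ → Set V), Cls E g (g * 2 ^ I) u g F Z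

/-- P1N: the numbers of Phase I. -/
def P1NStmt : Prop := ∀ k l s I h : ℕ, Par k l s I h → ∃ L Up : ℕ → ℝ,
  2 * (2 : ℝ) ^ s ≤ L 0 + 1 ∧ L I + (2 : ℝ) ^ (s + I) ≤ k ∧ (k : ℝ) ≤ Up I ∧
  Up 0 ≤ 17 * (2 : ℝ) ^ s ∧ ∀ i < I, ((2 : ℝ) ^ l ≤ L (i + 1) ∧
    L i + 2 ^ i ≤ L (i + 1) / 2 - √((2 : ℝ) ^ l * L (i + 1)) ∧ 0 ≤ Up (i + 1) ∧
    Up (i + 1) / 2 + √((2 : ℝ) ^ l * Up (i + 1)) ≤ Up i)

/-- P1: Phase I. -/
def P1Stmt : Prop := ∀ k l s I h : ℕ, Par k l s I h →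
  ∀ (V : Type) [Finite V] (E : Set (V × V)), Reg E k →
  ∃ (F : ℕ → Set (V × V)) (Z : ℕ → Set V), Cls E (2 ^ s) (2 ^ (s + I)) (17 * 2 ^ s) (2 ^ s) F Z

/-! ### R: relinking (Phase II) -/

/-- WIN: cutting every window of `g` consecutive arcs destroys all closed walks. -/
def WinStmt : Prop := ∀ (V : Type) (F S : Set (V × V)) (g : ℕ), CW F g →
  (∀ c : ℕ → V, (∀ i < g, (c i, c (i + 1)) ∈ F) → (∀ i j, i < j → j < g → c i ≠ c j) →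
    ∃ i < g, (c i, c (i + 1)) ∈ S) → Acyc (F \ S)

/-- PTH: `pth` is a partial injection. -/
def PthStmt : Prop := ∀ (V : Type) (F' : Set (V × V)) (Y X : Set V), PI F' →
  (∀ x ∈ X, x ∉ dom F') → (∀ y ∈ Y, y ∉ ran F') → PI (pth F' Y X)

/-- CUT1: the cut set, square root form. -/
def Cut1Stmt : Prop := ∀ (V : Type) [Finite V] (E R : Set (V × V)) (k q g u w : ℕ)
  (F : ℕ → Set (V × V)) (Z : ℕ → Set V) (C : Finset ℕ) (Eb : Set V) (lam : ℝ) (h : ℕ),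
  0 < lam → 288 * (k : ℝ) ^ 2 ≤ Real.exp (2 * lam) → g + 2 ≤ 2 * k → Reg E k → R ⊆ E →
  Cls E g q u w F Z → (∀ c ∈ C, c < q) → C.card ≤ k →
  ∃ S : Set (V × V),
    (∀ v, Near lam h {a | a.1 = v ∧ ∃ c ∈ C, a ∈ F c} S ∧
      Near lam h {a | a.2 = v ∧ ∃ c ∈ C, a ∈ F c} S) ∧
    ∀ c ∈ C, ∀ v, Near lam h (win (F c) g v) S ∧
      Near lam h (am R (F c) Set.univ v) S ∧ Near lam h (ap R (F c) Set.univ v) S ∧
      Near lam h (am R (F c) Eb v) S ∧ Near lam h (ap R (F c) Eb v) S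

/-- CUT2: the cut sets `S c` of the classes of a block. -/
def Cut2Stmt : Prop := ∀ (V : Type) [Finite V] (E R : Set (V × V)) (k q w : ℕ)
  (F : ℕ → Set (V × V)) (Z : ℕ → Set V) (C : Finset ℕ) (Eb : Set V) (lam : ℝ)
  (h u lo hi e P g Hb b D D' ζ : ℕ),
  0 < lam → 288 * (k : ℝ) ^ 2 ≤ Real.exp (2 * lam) → g + 2 ≤ 2 * k → Reg E k → R ⊆ E →
  Cls E g q u w F Z → (∀ c ∈ C, c < q) → C.card ≤ P → P ≤ k →
  (∀ v, (lo ≤ (out R v).ncard ∧ (out R v).ncard ≤ hi) ∧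
    (lo ≤ (inn R v).ncard ∧ (inn R v).ncard ≤ hi)) →
  (∀ v, e ≤ (out R v ∩ Eb).ncard ∧ e ≤ (inn R v ∩ Eb).ncard) →
  Num lam h u lo hi e P g Hb b D D' ζ →
  ∃ S : ℕ → Set (V × V), (∀ c ∈ C, S c ⊆ F c ∧ Acyc (F c \ S c)) ∧
    (∀ v, {c | c ∈ C ∧ v ∈ dom (S c)}.ncard ≤ Hb ∧ {c | c ∈ C ∧ v ∈ ran (S c)}.ncard ≤ Hb) ∧
    ∀ c ∈ C, CutOK R Eb Hb D D' ζ (S c)

/-- LNK: the links of the classes of a block. -/
def LnkStmt : Prop := ∀ (V : Type) [Finite V] (R : Set (V × V)) (F S : ℕ → Set (V × V))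
  (C : Finset ℕ) (Eb : Set V) (b D D' ζ Hb : ℕ), 1 ≤ b → b ≤ D → D' + b ≤ D + ζ + 1 →
  (∀ c ∈ C, PI (F c)) → (∀ c ∈ C, S c ⊆ F c ∧ Acyc (F c \ S c)) →
  (∀ v, {c | c ∈ C ∧ v ∈ dom (S c)}.ncard ≤ Hb ∧ {c | c ∈ C ∧ v ∈ ran (S c)}.ncard ≤ Hb) →
  (∀ c ∈ C, CutOK R Eb Hb D D' ζ (S c)) →
  ∃ M : ℕ → Set (V × V), (∀ c ∈ C, M c ⊆ R ∧ Rel1 (F c) (S c) (M c) b) ∧
    (∀ c ∈ C, ∀ d ∈ C, c ≠ d → Disjoint (M c) (M d)) ∧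
    (∀ c ∈ C, ∀ v, (v ∈ dom (S c) → v ∉ dom (M c) → v ∈ Eb) ∧
      (v ∈ ran (S c) → v ∉ ran (M c) → v ∈ Eb))

/-- DEG: the degrees of what is left. -/
def DegStmt : Prop := ∀ (V : Type) [Finite V] (E : Set (V × V)) (k q g u w0 P b Hb n : ℕ)
  (F S M : ℕ → Set (V × V)) (Z : ℕ → Set V) (w : V → ℕ), Reg E k → Cls E g q u w0 F Z →
  Sta E q P b Hb F S M n w → n * P ≤ q → ∀ v,
  (k ≤ (out (lft E q F S M) v).ncard + q ∧ (out (lft E q F S M) v).ncard + q ≤ k + w0 + w v) ∧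
  (k ≤ (inn (lft E q F S M) v).ncard + q ∧ (inn (lft E q F S M) v).ncard + q ≤ k + w0 + w v)

/-- BLK: one block. -/
def BlkStmt : Prop := ∀ (V : Type) [Finite V] (E : Set (V × V)) (k q w0 : ℕ)
  (F : ℕ → Set (V × V)) (Z : ℕ → Set V) (lam : ℝ) (h u lo hi e P g Hb b D D' ζ : ℕ),
  0 < lam → 288 * (k : ℝ) ^ 2 ≤ Real.exp (2 * lam) → g + 2 ≤ 2 * k → P ≤ k → Reg E k →
  Cls E g q u w0 F Z → Num lam h u lo hi e P g Hb b D D' ζ → lo + q ≤ k →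
  ∀ (S M : ℕ → Set (V × V)) (n : ℕ) (w : V → ℕ) (Eb : Set V), Sta E q P b Hb F S M n w →
  (n + 1) * P ≤ q → (∀ v, k + w0 + w v ≤ hi + q) →
  (∀ v, e ≤ (out (lft E q F S M) v ∩ Eb).ncard ∧ e ≤ (inn (lft E q F S M) v ∩ Eb).ncard) →
  ∃ (S' M' : ℕ → Set (V × V)) (w' : V → ℕ), Sta E q P b Hb F S' M' (n + 1) w' ∧
    (∀ v ∉ Eb, w' v = w v) ∧ (∀ v ∈ Eb, w' v = w v + Hb) ∧
    ∀ (v : V) (A : Set V), (out (lft E q F S M) v ∩ A).ncard ≤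
        (out (lft E q F S' M') v ∩ A).ncard + Hb ∧
      (inn (lft E q F S M) v ∩ A).ncard ≤ (inn (lft E q F S' M') v ∩ A).ncard + Hb

/-- SBK: one superblock of `2 ^ h` blocks. -/
def SbkStmt : Prop := ∀ (V : Type) [Finite V] (E : Set (V × V)) (k q w0 : ℕ)
  (F : ℕ → Set (V × V)) (Z : ℕ → Set V) (lam : ℝ) (h u lo hi e e₁ P g Hb b D D' ζ : ℕ),
  0 < lam → 288 * (k : ℝ) ^ 2 ≤ Real.exp (2 * lam) → g + 2 ≤ 2 * k → P ≤ k → Reg E k →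
  Cls E g q u w0 F Z → Num lam h u lo hi e P g Hb b D D' ζ → lo + q = k →
  √(e₁ : ℝ) ≤ √((lo : ℝ) / 2 ^ h) - 5 * √lam → e + 2 ^ h * Hb ≤ e₁ →
  ∀ (S M : ℕ → Set (V × V)) (n W : ℕ), Sta E q P b Hb F S M n (fun _ => W) →
  (n + 2 ^ h) * P ≤ q → k + w0 + W + Hb ≤ hi + q →
  ∃ S' M' : ℕ → Set (V × V), Sta E q P b Hb F S' M' (n + 2 ^ h) (fun _ => W + Hb)

/-- P2N: the numbers of Phase II. -/
def P2NStmt : Prop := ∀ k l s I h : ℕ, Par k l s I h → ∃ e e₁ D D' ζ : ℕ,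
  Num ((2 : ℝ) ^ l) h (17 * 2 ^ s) (k - 2 ^ (s + I)) (k - 2 ^ (s + I) + 2 ^ (s + 14)) e
    (2 ^ (h + l)) (2 ^ s) (2 ^ (l + 4)) (2 ^ (s + 8)) D D' ζ ∧
  √(e₁ : ℝ) ≤ √(((k - 2 ^ (s + I) : ℕ) : ℝ) / 2 ^ h) - 5 * √((2 : ℝ) ^ l) ∧
  e + 2 ^ h * 2 ^ (l + 4) ≤ e₁

/-- P2: Phase II. There are `2 ^ (I + 5)` blocks of `2 ^ (h + l)` classes. -/
def P2Stmt : Prop := ∀ k l s I h : ℕ, Par k l s I h →
  ∀ (V : Type) [Finite V] (E : Set (V × V)), Reg E k →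
  ∀ (F : ℕ → Set (V × V)) (Z : ℕ → Set V),
  Cls E (2 ^ s) (2 ^ (s + I)) (17 * 2 ^ s) (2 ^ s) F Z →
  ∃ S M : ℕ → Set (V × V), Sta E (2 ^ (s + I)) (2 ^ (h + l)) (2 ^ (s + 8)) (2 ^ (l + 4)) F S M
    (2 ^ (I + 5)) (fun _ => 2 ^ (s + 13))

/-! ### C: the final cut -/

/-- IT: independent transversal. -/
def ITStmt : Prop := ∀ (Z ι : Type) [Finite Z] [Finite ι] (A : ι → Set Z) (conf : Z → Z → Prop)
  (d : ℕ), 1 ≤ d → (∀ x y, conf x y → conf y x) → (∀ i j, i ≠ j → Disjoint (A i) (A j)) →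
  (∀ i, 4 * d ≤ (A i).ncard) → (∀ x, {y | (∃ i, y ∈ A i) ∧ conf x y}.ncard ≤ d) →
  ∃ f : ι → Z, (∀ i, f i ∈ A i) ∧ ∀ i j, i ≠ j → ¬ conf (f i) (f j)

/-- DCP: closed walks of `F' ∪ M` decompose. -/
def DcpStmt : Prop := ∀ (V : Type) (F' M : Set (V × V)) (Y X : Set V), Acyc F' →
  (∀ x ∈ dom M, x ∈ X) → (∀ y ∈ ran M, y ∈ Y) → Acyc (comp (pth F' Y X) M) → Acyc (F' ∪ M)

/-- GRP: the cuts `X c` in one group `C` of classes. -/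
def GrpStmt : Prop := ∀ (V : Type) [Finite V] (C : Finset ℕ) (T M : ℕ → Set (V × V)) (b d : ℕ),
  1 ≤ d → 4 * (2 * d) ≤ b → (∀ c ∈ C, PI (T c) ∧ PI (M c) ∧ CW (comp (T c) (M c)) b) →
  (∀ v, {c | c ∈ C ∧ v ∈ dom (M c)}.ncard ≤ d ∧ {c | c ∈ C ∧ v ∈ ran (M c)}.ncard ≤ d) →
  ∃ X : ℕ → Set (V × V), (∀ c ∈ C, X c ⊆ M c ∧ Acyc (comp (T c) (M c \ X c))) ∧
    ∀ v, {c | c ∈ C ∧ v ∈ dom (X c)}.ncard ≤ 1 ∧ {c | c ∈ C ∧ v ∈ ran (X c)}.ncard ≤ 1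

/-- FCA: the final cut of all classes. -/
def FcaStmt : Prop := ∀ k l s I h : ℕ, Par k l s I h →
  ∀ (V : Type) [Finite V] (E : Set (V × V)), Reg E k →
  ∀ (F : ℕ → Set (V × V)) (Z : ℕ → Set V) (S M : ℕ → Set (V × V)),
  Cls E (2 ^ s) (2 ^ (s + I)) (17 * 2 ^ s) (2 ^ s) F Z →
  Sta E (2 ^ (s + I)) (2 ^ (h + l)) (2 ^ (s + 8)) (2 ^ (l + 4)) F S M
    (2 ^ (I + 5)) (fun _ => 2 ^ (s + 13)) →
  Round E (2 ^ (s + I)) (2 ^ (s + 15))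

/-- RND: the round lemma. -/
def RndStmt : Prop := ∀ k l s I h : ℕ, Par k l s I h →
  ∀ (V : Type) [Finite V] (E : Set (V × V)), Reg E k → Round E (2 ^ (s + I)) (2 ^ (s + 15))

/-! ### T: top -/

/-- PAR: the parameters exist for large `k`. -/
def ParStmt : Prop := ∃ k₀ : ℕ, ∀ k ≥ k₀, ∃ l s I h : ℕ, Par k l s I h

/-- ORI: balanced orientation of a `2k`-regular graph. -/
def OriStmt : Prop := ∀ (V : Type) [Finite V] (G : SimpleGraph V) (k : ℕ),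
  (∀ v, (G.neighborSet v).ncard = 2 * k) → ∃ E : Set (V × V), Reg E k ∧
    (∀ u v, G.Adj u v ↔ ((u, v) ∈ E ∨ (v, u) ∈ E)) ∧ ∀ u v, (u, v) ∈ E → (v, u) ∉ E

/-- LFO: an acyclic partial injection is a linear forest. -/
def LfoStmt : Prop := ∀ (V : Type) [Finite V] (K : Set (V × V)), PI K → Acyc K →
  IsLinearForest (SimpleGraph.fromRel (fun u v => (u, v) ∈ K))

/-- REC: the recursion. -/
def RecStmt : Prop := ∀ k q err : ℕ,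
  (∀ (V : Type) [Finite V] (E : Set (V × V)), Reg E k → Round E q err) → q ≤ k →
  ∀ n, Cov (k - q + err) n → Cov k (q + n)

/-- ANA: solution of the recursion. -/
def AnaStmt : Prop := ∀ (Q : ℕ → ℕ → Prop) (k₀ : ℕ) (c : ℝ), (∀ k, Q k (2 * k)) →
  (∀ k ≥ k₀, ∃ q err : ℕ, k ≤ 16 * q ∧ q ≤ k ∧ (err : ℝ) ^ 3 ≤ c * k * (Real.log k + 3) ^ 2 ∧
    ∀ n, Q (k - q + err) n → Q k (q + n)) →
  ∃ C : ℝ, ∀ k ≥ 1, ∃ n : ℕ, Q k n ∧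
    (n : ℝ) ≤ k + C * ((k : ℝ) * (1 + Real.log k) ^ 2) ^ ((1 : ℝ) / 3)

/-- FIN: the theorem. -/
def FinStmt : Prop := ∃ C : ℝ, ∀ (V : Type) [Finite V] (G : SimpleGraph V) (Δ : ℕ), 1 ≤ Δ →
  (∀ v, (G.neighborSet v).ncard ≤ Δ) → ∃ n : ℕ, CoveredBy G n ∧
  (n : ℝ) ≤ Δ / 2 + C * ((Δ : ℝ) * (1 + Real.log Δ) ^ 2) ^ ((1 : ℝ) / 3)

end Pool.Agent.LAX
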