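import Mathlib
import Pool.Agent.Helper81_LAX.GLm
import Pool.Agent.Helper81_LAX.HLm
import Pool.Agent.Helper87_LAX.Ip
import Pool.Agent.Helper52_LAX.P1B
import Pool.Agent.Helper53_LAX.P1s
import Pool.Agent.Helper52_LAX.P1I
import Pool.Agent.Helper20_LAX.P1N
import Pool.Agent.Helper76_LAX.P1
import Pool.Agent.Helper17_LAX.Win
import Pool.Agent.Helper76_LAX.PTH
import Pool.Agent.Helper75_LAX.Cut1
import Pool.Agent.Helper75_LAX.Cut2
import Pool.Agent.Helper9_LAX.Lnk
import Pool.Agent.Helper72_LAX.Deg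
import Pool.Agent.Helper53_LAX.Sbk
import Pool.Agent.Helper20_LAX.P2N
import Pool.Agent.Helper87_LAX.P2
import Pool.Agent.Helper17_LAX.IT
import Pool.Agent.Helper63_LAX.Dcp
import Pool.Agent.Helper9_LAX.Fca
import Pool.Agent.Helper18_LAX.Rnd
import Pool.Agent.Helper78_LAX.Par
import Pool.Agent.Helper37_LAX.Ori
import Pool.Agent.Helper3_LAX.Lfo
import Pool.Agent.Helper81_LAX.Rec
import Pool.Agent.Helper37_LAX.Ana
import Pool.Agent.Helper63_LAX.Fin

/-!
# LAX: everything except BLK and GRP put together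
-/

set_option autoImplicit false

namespace Pool.Agent.LAX

theorem fin_of_blk_grp (hB : Cut2Stmt → LnkStmt → DegStmt → BlkStmt) (hG : ITStmt → GrpStmt) :
    FinStmt := by
  have gl := H81.gl
  have hl := H81.hl
  have ip := H87.ip hl
  have p1 := H76.p1 (H52.p1b gl) (H53.p1s hl) H52.p1i H20.p1N
  have pth := H76.pth_thm
  have cut2 := H75.cut2 (H75.cut1 ip) H17.win
  have lnk := H9.lnk gl pth
  have blk := hB cut2 lnk H72.deg
  have p2 := H87.p2 (H53.sbk ip blk) H20.p2N
  have fca := H9.fca H63.dcp (hG H17.it) pth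
  have rnd := H18.rnd p1 p2 fca
  exact H63.fin rnd H78.par (H81.rec H37.ori H3.lfo) H37.ana

end Pool.Agent.LAX
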