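import Mathlib
import Pool.Agent.Helper96_LAX.All0
import Pool.Agent.Helper27_LAX.Blk
import Pool.Agent.Helper27_LAX.Grp

/-!
# LAX: the final statement, all modules put together
-/

set_option autoImplicit false

namespace Pool.Agent.LAX

theorem fin_all : FinStmt := fin_of_blk_grp H27.blk H27.grp

end Pool.Agent.LAX
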